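import Pool.Agent.U697.T8b

/-!
# Q2: `T(p) ≡ 0 (mod p²)` for every prime `p ≡ 7 (mod 8)`
-/

set_option autoImplicit false

namespace Pool.Agent.Results.MP_025f5d_nt.SupercongruenceQTwo

open Finset

/-- The Pell numbers `P_0 = 0`, `P_1 = 1`, `P_{n+2} = 2 P_{n+1} + P_n`. -/
def pell : ℕ → ℤ
  | 0 => 0
  | 1 => 1
  | n + 2 => 2 * pell (n + 1) + pell n

/-- `T(p) = ∑_{k<p} C(p-1,k) P_k / 8^k C(2k,k)²` -/
def T (p : ℕ) : ℚ :=
  ∑ k ∈ range p, ((p - 1).choose k : ℚ) * ((pell k : ℚ) / 8 ^ k) * ((2 * k).choose k : ℚ) ^ 2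

/-- `u ≡ v` modulo `p^r`: the difference is `p^r` times a fraction whose denominator is not divisible by `p`. -/
def Cong (p r : ℕ) (u v : ℚ) : Prop := ∃ (n : ℤ) (d : ℕ), ¬ p ∣ d ∧ u - v = (p : ℚ) ^ r * (n / d)

theorem pell_same (n : ℕ) : pell n = Pool.Agent.U697.T8.pell n := by
  induction n using Nat.twoStepInduction with
  | zero => rfl
  | one => rfl
  | more n h1 h2 => rw [pell, Pool.Agent.U697.T8.pell, h1, h2]

theorem T_eq (p : ℕ) (hp : 0 < p) : T p * 8 ^ (p - 1) = (Pool.Agent.U697.T8.N p : ℚ) := by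
  unfold T Pool.Agent.U697.T8.N
  rw [Int.cast_sum, sum_mul]
  refine sum_congr rfl fun k hk => ?_
  obtain ⟨a, ha⟩ : ∃ a, p - 1 = k + a := ⟨p - 1 - k, by have := mem_range.1 hk; omega⟩
  rw [ha, Nat.add_sub_cancel_left, ← pell_same]
  push_cast
  rw [pow_add]
  have h8 : (8 : ℚ) ^ k ≠ 0 := pow_ne_zero _ (by norm_num)
  field_simp

/-- **Q2.** For every prime `p ≡ 7 (mod 8)`, `T(p) ≡ 0 (mod p²)`. -/
theorem result : ∀ p : ℕ, p.Prime → p % 8 = 7 → Cong p 2 (T p) 0 := by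
  intro p hp h8
  have : Fact p.Prime := ⟨hp⟩
  have h1 := Pool.Agent.U697.T8.N_zero p h8
  rw [ZMod.intCast_zmod_eq_zero_iff_dvd] at h1
  obtain ⟨c, hc⟩ := h1
  refine ⟨c, 8 ^ (p - 1), fun h2 => ?_, ?_⟩
  · have h3 := hp.dvd_of_dvd_pow h2
    have h4 : p ∣ 2 ^ 3 := by norm_num; exact h3
    have h5 := (Nat.prime_dvd_prime_iff_eq hp Nat.prime_two).1 (hp.dvd_of_dvd_pow h4)
    omega
  · have h5 := T_eq p hp.pos
    rw [hc] at h5
    have h6 : (8 : ℚ) ^ (p - 1) ≠ 0 := pow_ne_zero _ (by norm_num)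
    push_cast at h5 ⊢
    rw [sub_zero, ← mul_div_assoc, eq_div_iff h6, h5]

end Pool.Agent.Results.MP_025f5d_nt.SupercongruenceQTwo
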